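import Pool.Agent.Y110.FJ.Stm

/-!
A criterion for amalgamated products: two subgroups all of whose alternating products are not
trivial.
-/

set_option autoImplicit false

namespace Pool.Agent.R632.GE

open Pool.Agent.Y110.FJ

variable {G : Type} [Group G]

/-- Alternating products that begin with a factor in `X i`. -/
inductive RX (X : Bool → Subgroup G) : Bool → G → Prop
  | base (i : Bool) (a : G) : a ∈ X i → a ∉ X (!i) → RX X i a
  | step (i : Bool) (a z : G) : a ∈ X i → a ∉ X (!i) → RX X (!i) z → RX X i (a * z)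

section Lift

variable {H : Type} [Group H] (X : Bool → Subgroup G) (F : (i : Bool) → X i →* H)

/-- Alternating products with their values. -/
inductive PX : Bool → G → H → Prop
  | base (i : Bool) (a : X i) : (a : G) ∉ X (!i) → PX i a (F i a)
  | step (i : Bool) (a : X i) (z : G) (h : H) : (a : G) ∉ X (!i) → PX (!i) z h →
      PX i (a * z) (F i a * h)

theorem PX_RX {i : Bool} {z : G} {h : H} (hp : PX X F i z h) : RX X i z := by
  induction hp with
  | base i a ha => exact RX.base i (a : G) a.2 ha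
  | step i a z h ha _ ih => exact RX.step i (a : G) z a.2 ha ih

/-- The pairs of an element and its value. -/
def PP (z : G) (h : H) : Prop :=
  (∃ (i : Bool) (a : X i), (a : G) ∈ X (!i) ∧ z = a ∧ h = F i a) ∨ ∃ i, PX X F i z h

variable (hF : ∀ (i : Bool) (c : G) (h : c ∈ X i) (h' : c ∈ X (!i)), F i ⟨c, h⟩ = F (!i) ⟨c, h'⟩)

include hF

omit hF in
theorem PX_K {j : Bool} {z : G} {h : H} (hp : PX X F j z h) (c : G) (hc : c ∈ X j)
    (hc' : c ∈ X (!j)) : PX X F j (c * z) (F j ⟨c, hc⟩ * h) := by
  cases hp with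
  | base _ a ha =>
    rw [← map_mul]
    refine PX.base j ((⟨c, hc⟩ : X j) * a) ?_
    intro h
    exact ha (((X (!j)).mul_mem_cancel_left hc').1 h)
  | step _ a z h ha hz =>
    rw [← mul_assoc, ← mul_assoc, ← map_mul]
    refine PX.step j ((⟨c, hc⟩ : X j) * a) z h ?_ hz
    intro h
    exact ha (((X (!j)).mul_mem_cancel_left hc').1 h)

theorem PP_mul {z : G} {h : H} (hp : PP X F z h) (i : Bool) (a : X i) :
    PP X F (a * z) (F i a * h) := by
  rcases hp with ⟨j, b, hb, rfl, rfl⟩ | ⟨j, hp⟩
  · have key : ∃ b' : X i, (b' : G) = b ∧ F i b' = F j b := by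
      by_cases hij : j = i
      · subst hij
        exact ⟨b, rfl, rfl⟩
      · have hji : i = !j := by revert hij; cases i <;> cases j <;> simp
        subst hji
        exact ⟨⟨b, hb⟩, rfl, (hF j b b.2 hb).symm⟩
    obtain ⟨b', e1, e2⟩ := key
    rw [← e1, ← e2, ← map_mul]
    by_cases hk : ((a * b' : X i) : G) ∈ X (!i)
    · exact Or.inl ⟨i, a * b', hk, rfl, rfl⟩
    · exact Or.inr ⟨i, PX.base i (a * b') hk⟩
  · by_cases hij : j = i
    · subst hij
      cases hp with
      | base _ b hb =>
        rw [← map_mul]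
        by_cases hk : ((a * b : X j) : G) ∈ X (!j)
        · exact Or.inl ⟨j, a * b, hk, rfl, rfl⟩
        · exact Or.inr ⟨j, PX.base j (a * b) hk⟩
      | step _ b z h hb hz =>
        rw [← mul_assoc, ← mul_assoc, ← map_mul]
        by_cases hk : ((a * b : X j) : G) ∈ X (!j)
        · refine Or.inr ⟨!j, ?_⟩
          have := PX_K X F hz (a * b : X j) hk (by rw [Bool.not_not]; exact (a * b).2)
          rw [← hF j _ (a * b).2 hk] at this
          exact this
        · exact Or.inr ⟨j, PX.step j (a * b) z h hk hz⟩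
    · have hji : i = !j := by revert hij; cases i <;> cases j <;> simp
      subst hji
      by_cases hk : (a : G) ∈ X j
      · refine Or.inr ⟨j, ?_⟩
        have := PX_K X F hp a hk a.2
        rw [hF j _ hk a.2] at this
        exact this
      · refine Or.inr ⟨!j, PX.step (!j) a z h ?_ ?_⟩
        · rw [Bool.not_not]; exact hk
        · rw [Bool.not_not]; exact hp

omit hF in
theorem PP_one : PP X F 1 1 :=
  Or.inl ⟨true, 1, one_mem _, rfl, (map_one _).symm⟩

omit hF in
theorem PP_ker (hX : ∀ i z, RX X i z → z ≠ 1) {h : H} (hp : PP X F 1 h) : h = 1 := by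
  rcases hp with ⟨j, b, hb, h1, rfl⟩ | ⟨j, hp⟩
  · have : b = 1 := Subtype.ext h1.symm
    rw [this, map_one]
  · exact absurd rfl (hX j 1 (PX_RX X F hp))

/-- The lift. -/
theorem lift (hX : ∀ i z, RX X i z → z ≠ 1) (hgen : X true ⊔ X false = ⊤) :
    ∃ f : G →* H, ∀ (i : Bool) (a : X i), f a = F i a := by
  let T : Set (G × H) := {x | ∃ (i : Bool) (a : X i), x = ((a : G), F i a)}
  let S : Subgroup (G × H) := Subgroup.closure T
  have hS : ∀ x ∈ S, PP X F x.1 x.2 := by
    intro x hx
    induction hx using Subgroup.closure_induction_left with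
    | one => exact PP_one X F
    | mul_left x hx y _ ih =>
      obtain ⟨i, a, rfl⟩ := hx
      exact PP_mul X F hF ih i a
    | inv_mul_cancel x hx y _ ih =>
      obtain ⟨i, a, rfl⟩ := hx
      have := PP_mul X F hF ih i a⁻¹
      rw [map_inv] at this
      exact this
  let p : S →* G := (MonoidHom.fst G H).comp S.subtype
  have hinj : Function.Injective p := by
    rw [injective_iff_map_eq_one]
    rintro ⟨⟨z, h⟩, hx⟩ hz
    have hz' : z = 1 := hz
    subst hz'
    have h1 : PP X F 1 h := hS _ hx
    have := PP_ker X F hX h1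
    subst this
    rfl
  have hmem : ∀ (i : Bool) (a : X i), ((a : G), F i a) ∈ S :=
    fun i a => Subgroup.subset_closure ⟨i, a, rfl⟩
  have hsurj : Function.Surjective p := by
    rw [← MonoidHom.range_eq_top, eq_top_iff, ← hgen, sup_le_iff]
    constructor
    · intro a ha
      exact ⟨⟨_, hmem true ⟨a, ha⟩⟩, rfl⟩
    · intro a ha
      exact ⟨⟨_, hmem false ⟨a, ha⟩⟩, rfl⟩
  let e : S ≃* G := MulEquiv.ofBijective p ⟨hinj, hsurj⟩
  refine ⟨((MonoidHom.snd G H).comp S.subtype).comp e.symm.toMonoidHom, ?_⟩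
  intro i a
  have : e.symm (a : G) = ⟨((a : G), F i a), hmem i a⟩ := by
    rw [MulEquiv.symm_apply_eq]
    rfl
  show ((e.symm (a : G) : S) : G × H).2 = F i a
  rw [this]

end Lift

/-- **The criterion.** -/
theorem amg (X : Bool → Subgroup G) (hX : ∀ i z, RX X i z → z ≠ 1)
    (hgen : X true ⊔ X false = ⊤) : Amg (X true) (X false) (X true ⊓ X false) := by
  refine ⟨inf_le_left, inf_le_right, hgen, ?_⟩
  intro H _ f g hfg
  let F : (i : Bool) → X i →* H := fun i => match i with
    | true => f
    | false => g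
  have hF : ∀ (i : Bool) (c : G) (h : c ∈ X i) (h' : c ∈ X (!i)),
      F i ⟨c, h⟩ = F (!i) ⟨c, h'⟩ := by
    intro i
    cases i with
    | true => exact fun c h h' => hfg c ⟨h, h'⟩
    | false => exact fun c h h' => (hfg c ⟨h', h⟩).symm
  obtain ⟨φ, hφ⟩ := lift X F hF hX hgen
  exact ⟨φ, hφ true, hφ false⟩

end Pool.Agent.R632.GE
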