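import Mathlib
import Pool.Agent.Y430.SS.Lf

/-!
Groups of upper triangular matrices of size `2` over an algebra with diagonal entries in the field.
-/

set_option autoImplicit false

namespace Pool.Agent.R632.GE

open Pool.Agent.Y462.SS (Closed)

/-- Upper triangular matrices with diagonal entries in the field `k` and upper right entry in the
vector space `V`. -/
@[ext] structure Bor (k V : Type) [Field k] [AddCommGroup V] [Module k V] where
  a : kˣ
  d : kˣ
  r : V

namespace Bor

variable {k V W : Type} [Field k] [AddCommGroup V] [Module k V] [AddCommGroup W] [Module k W]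

instance : Mul (Bor k V) :=
  ⟨fun x y => ⟨x.a * y.a, x.d * y.d, (x.a : k) • y.r + (y.d : k) • x.r⟩⟩
instance : One (Bor k V) := ⟨⟨1, 1, 0⟩⟩
instance : Inv (Bor k V) := ⟨fun x => ⟨x.a⁻¹, x.d⁻¹, -(((x.a⁻¹ * x.d⁻¹ : kˣ) : k) • x.r)⟩⟩

@[simp] theorem mul_a (x y : Bor k V) : (x * y).a = x.a * y.a := rfl
@[simp] theorem mul_d (x y : Bor k V) : (x * y).d = x.d * y.d := rfl
@[simp] theorem mul_r (x y : Bor k V) : (x * y).r = (x.a : k) • y.r + (y.d : k) • x.r := rfl
@[simp] theorem one_a : (1 : Bor k V).a = 1 := rfl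
@[simp] theorem one_d : (1 : Bor k V).d = 1 := rfl
@[simp] theorem one_r : (1 : Bor k V).r = 0 := rfl
@[simp] theorem inv_a (x : Bor k V) : (x⁻¹).a = x.a⁻¹ := rfl
@[simp] theorem inv_d (x : Bor k V) : (x⁻¹).d = x.d⁻¹ := rfl
@[simp] theorem inv_r (x : Bor k V) : (x⁻¹).r = -(((x.a⁻¹ * x.d⁻¹ : kˣ) : k) • x.r) := rfl

instance : Group (Bor k V) :=
  Group.ofLeftAxioms
    (fun x y z => by
      refine Bor.ext (mul_assoc _ _ _) (mul_assoc _ _ _) ?_
      simp only [mul_r, mul_a, mul_d, Units.val_mul, smul_add, smul_smul]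
      rw [add_assoc, mul_comm (x.a : k) (z.d : k), mul_comm (z.d : k) (y.d : k)])
    (fun x => by
      refine Bor.ext (one_mul _) (one_mul _) ?_
      simp)
    (fun x => by
      refine Bor.ext (inv_mul_cancel _) (inv_mul_cancel _) ?_
      simp only [mul_r, inv_a, inv_r, one_r, smul_neg, smul_smul, Units.val_mul]
      have h : (x.d : k) * (((x.a⁻¹ : kˣ) : k) * ((x.d⁻¹ : kˣ) : k)) = ((x.a⁻¹ : kˣ) : k) := by
        have := x.d.mul_inv
        rw [mul_comm ((x.a⁻¹ : kˣ) : k), ← mul_assoc, this, one_mul]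
      rw [h]
      exact add_neg_cancel _)

/-- functoriality -/
def map (φ : V →ₗ[k] W) : Bor k V →* Bor k W where
  toFun x := ⟨x.a, x.d, φ x.r⟩
  map_one' := by
    refine Bor.ext rfl rfl ?_
    exact map_zero φ
  map_mul' x y := by
    refine Bor.ext rfl rfl ?_
    simp

theorem map_r (φ : V →ₗ[k] W) (x : Bor k V) : (map φ x).r = φ x.r := rfl

theorem map_eq {φ : V →ₗ[k] W} {x y : Bor k V} (h : map φ x = map φ y) :
    x.a = y.a ∧ x.d = y.d ∧ φ x.r = φ y.r :=
  ⟨congrArg (fun z : Bor k W => z.a) h, congrArg (fun z : Bor k W => z.d) h,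
    congrArg (fun z : Bor k W => z.r) h⟩

theorem map_injective (φ : V →ₗ[k] W) (h : Function.Injective φ) :
    Function.Injective (map φ) := by
  intro x y hxy
  exact Bor.ext (map_eq hxy).1 (map_eq hxy).2.1 (h (map_eq hxy).2.2)

end Bor

/-- powers -/
theorem cpi {C : ∀ (G : Type) [Group G], Prop} (hC : Closed C) (P : Type) [Group P] (hP : C P)
    (n : ℕ) : C (Fin n → P) := by
  induction n with
  | zero => exact Pool.Agent.Y430.SS.of_finite hC _ inferInstance
  | succ n ih =>
    let f : (Fin (n + 1) → P) →* P × (Fin n → P) :=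
      { toFun := fun x => (x 0, fun i => x i.succ)
        map_one' := rfl
        map_mul' := fun _ _ => rfl }
    refine hC.of_injective _ _ f ?_ (hC.prod _ _ hP ih)
    intro x y h
    funext i
    refine Fin.cases ?_ ?_ i
    · exact congrArg Prod.fst h
    · intro j
      exact congrFun (congrArg Prod.snd h) j

section

variable {k V : Type} [Field k] [AddCommGroup V] [Module k V]

theorem C_bor_fin {C : ∀ (G : Type) [Group G], Prop} (hC : Closed C) (h : C (Bor k k))
    [Module.Finite k V] : C (Bor k V) := by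
  let e : V ≃ₗ[k] (Fin (Module.finrank k V) → k) := (Module.finBasis k V).equivFun
  let f : Bor k V →* Bor k k × (Fin (Module.finrank k V) → Bor k k) :=
    (Bor.map (0 : V →ₗ[k] k)).prod
      (MonoidHom.pi fun i => Bor.map ((LinearMap.proj i).comp e.toLinearMap))
  refine hC.of_injective _ _ f ?_ (hC.prod _ _ h (cpi hC _ h _))
  intro x y hxy
  have h1 : Bor.map (0 : V →ₗ[k] k) x = Bor.map (0 : V →ₗ[k] k) y := congrArg Prod.fst hxy
  refine Bor.ext (Bor.map_eq h1).1 (Bor.map_eq h1).2.1 ?_
  apply e.injective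
  funext i
  exact (Bor.map_eq (congrFun (congrArg Prod.snd hxy) i)).2.2

theorem C_bor {C : ∀ (G : Type) [Group G], Prop} (hC : Closed C) (h : C (Bor k k)) :
    C (Bor k V) := by
  refine Pool.Agent.Y430.SS.of_directed hC (Bor k V) {W : Submodule k V // W.FG}
    (fun W W' => ⟨⟨W.1 ⊔ W'.1, W.2.sup W'.2⟩, le_sup_left, le_sup_right⟩)
    (fun W => (Bor.map W.1.subtype).range) ?_ ?_ ?_
  · rintro W W' hWW' _ ⟨x, rfl⟩
    refine ⟨⟨x.a, x.d, ⟨x.r, hWW' x.r.2⟩⟩, rfl⟩
  · intro x
    refine ⟨⟨Submodule.span k {x.r}, Submodule.fg_span_singleton x.r⟩, ?_⟩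
    exact ⟨⟨x.a, x.d, ⟨x.r, Submodule.mem_span_singleton_self x.r⟩⟩, rfl⟩
  · intro W
    have : Module.Finite k W.1 := Module.Finite.iff_fg.2 W.2
    have hinj : Function.Injective (Bor.map W.1.subtype) :=
      Bor.map_injective _ W.1.subtype_injective
    refine hC.of_injective _ _ (MonoidHom.ofInjective hinj).symm.toMonoidHom ?_ (C_bor_fin hC h)
    exact (MonoidHom.ofInjective hinj).symm.injective

end

section

variable {k R : Type} [Field k] [Ring R] [Algebra k R]

/-- the matrix -/
def bmat : Bor k R →* Matrix (Fin 2) (Fin 2) R where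
  toFun x := !![algebraMap k R x.a, x.r; 0, algebraMap k R x.d]
  map_one' := by
    ext i j
    fin_cases i <;> fin_cases j <;> simp
  map_mul' x y := by
    rw [Matrix.mul_fin_two]
    have h1 : (x * y).r = algebraMap k R x.a * y.r + x.r * algebraMap k R y.d := by
      rw [Bor.mul_r, Algebra.smul_def, Algebra.smul_def, ← Algebra.commutes]
    rw [h1]
    simp

/-- the invertible matrix -/
def bu : Bor k R →* (Matrix (Fin 2) (Fin 2) R)ˣ := (bmat (k := k) (R := R)).toHomUnits

theorem bu_val (x : Bor k R) :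
    ((bu x : (Matrix (Fin 2) (Fin 2) R)ˣ) : Matrix (Fin 2) (Fin 2) R) =
      !![algebraMap k R x.a, x.r; 0, algebraMap k R x.d] := rfl

theorem bu_injective [Nontrivial R] : Function.Injective (bu (k := k) (R := R)) := by
  intro x y h
  have h1 : bmat x = bmat y := congrArg Units.val h
  have hi : Function.Injective (algebraMap k R) := (algebraMap k R).injective
  refine Bor.ext (Units.ext (hi ?_)) (Units.ext (hi ?_)) ?_
  · exact congrFun (congrFun h1 0) 0
  · exact congrFun (congrFun h1 1) 1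
  · exact congrFun (congrFun h1 0) 1

theorem C_bor_k {C : ∀ (G : Type) [Group G], Prop} (hC : Closed C)
    (h : C (Matrix (Fin 2) (Fin 2) k)ˣ) : C (Bor k k) :=
  hC.of_injective _ _ (bu (k := k) (R := k)) bu_injective h

end

end Pool.Agent.R632.GE
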