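import Mathlib
import Pool.Agent.R632.GE.Amg
import Pool.Agent.R632.GE.Bor
import Pool.Agent.R665.FJ.Am

/-!
The groups `GE₂(R)` for rings with a degree function.
-/

set_option autoImplicit false

namespace Pool.Agent.R632.GE

open Pool.Agent.Y110.FJ

/-- `D` is a degree function of the ring `R`: `D x = ⊥` only for `x = 0`, the degree of a product
is the sum of the degrees, the degree of a sum is at most the maximum of the degrees, and the
elements of degree `0` are invertible. (So the elements of degree at most `0` form a division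
ring.) -/
structure IsDegree (R : Type) [Ring R] (D : R → WithBot ℕ) : Prop where
  bot : ∀ x, D x = ⊥ ↔ x = 0
  mul : ∀ x y, D (x * y) = D x + D y
  add : ∀ x y, D (x + y) ≤ max (D x) (D y)
  unit : ∀ x, D x = 0 → IsUnit x

/-- The group `GE₂(R)`: the group generated by the elementary matrices and the invertible diagonal
matrices of size `2` over `R`. -/
def GE2 (R : Type) [Ring R] : Subgroup (Matrix (Fin 2) (Fin 2) R)ˣ :=
  Subgroup.closure {u | (∃ r : R, u.val = !![1, r; 0, 1]) ∨ (∃ r : R, u.val = !![1, 0; r, 1]) ∨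
    ∃ a d : R, u.val = !![a, 0; 0, d]}

theorem wb_zero {x : WithBot ℕ} (h : x ≤ 0) (h' : x ≠ ⊥) : x = 0 := by
  obtain ⟨n, rfl⟩ := WithBot.ne_bot_iff_exists.1 h'
  have h1 : (WithBot.some n : WithBot ℕ) ≤ WithBot.some 0 := h
  have : n ≤ 0 := WithBot.coe_le_coe.1 h1
  have : n = 0 := by omega
  subst this
  rfl

theorem wb_nonneg {x : WithBot ℕ} (h : x ≠ ⊥) : 0 ≤ x := by
  obtain ⟨n, rfl⟩ := WithBot.ne_bot_iff_exists.1 h
  exact WithBot.coe_le_coe.2 (Nat.zero_le n)

theorem wb_le_of_add {x y : WithBot ℕ} (h : x + y ≤ 0) (h' : y ≠ ⊥) : x ≤ 0 := by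
  calc x = x + 0 := (add_zero _).symm
    _ ≤ x + y := by
      gcongr
      exact wb_nonneg h'
    _ ≤ 0 := h

theorem wb_lt_add {x y : WithBot ℕ} (h : 0 < x) (h' : y ≠ ⊥) : y < x + y := by
  obtain ⟨n, rfl⟩ := WithBot.ne_bot_iff_exists.1 h'
  obtain ⟨m, rfl⟩ := WithBot.ne_bot_iff_exists.1 (ne_bot_of_gt h)
  have h0' : 0 < m := WithBot.coe_lt_coe.1 h
  have : n < m + n := by omega
  exact WithBot.coe_lt_coe.2 this

namespace IsDegree

variable {R : Type} [Ring R] [Nontrivial R] {D : R → WithBot ℕ}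

theorem one (h : IsDegree R D) : D 1 = 0 := by
  have h1 : D 1 ≠ ⊥ := fun h1 => one_ne_zero ((h.bot 1).1 h1)
  have h2 : D 1 = D 1 + D 1 := by rw [← h.mul, one_mul]
  obtain ⟨n, hn⟩ := WithBot.ne_bot_iff_exists.1 h1
  rw [← hn] at h2 ⊢
  have h3 : n = n + n := WithBot.coe_injective h2
  have : n = 0 := by omega
  subst this
  rfl

omit [Nontrivial R] in
theorem le_mul (h : IsDegree R D) {c : R} (hc : D c ≤ 0) (x : R) : D (c * x) ≤ D x := by
  rw [h.mul]
  calc D c + D x ≤ 0 + D x := by gcongr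
    _ = D x := zero_add _

omit [Nontrivial R] in
theorem eq_mul (h : IsDegree R D) {c : R} (hc : D c = 0) (x : R) : D (c * x) = D x := by
  rw [h.mul, hc, zero_add]

omit [Nontrivial R] in
theorem ne (h : IsDegree R D) {x : R} (hx : x ≠ 0) : D x ≠ ⊥ := fun h1 => hx ((h.bot x).1 h1)

omit [Nontrivial R] in
theorem const (h : IsDegree R D) {x : R} (hx : D x ≤ 0) (hx0 : x ≠ 0) : D x = 0 :=
  wb_zero hx (h.ne hx0)

theorem neg_one (h : IsDegree R D) : D (-1) = 0 := by
  have h1 : D (-1) + D (-1) = 0 := by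
    rw [← h.mul, neg_one_mul, neg_neg, h.one]
  exact h.const (wb_le_of_add h1.le (h.ne (neg_ne_zero.2 one_ne_zero)))
    (neg_ne_zero.2 one_ne_zero)

theorem neg (h : IsDegree R D) (x : R) : D (-x) = D x := by
  rw [← neg_one_mul, h.eq_mul h.neg_one]

theorem add_eq (h : IsDegree R D) {x y : R} (hxy : D y < D x) : D (x + y) = D x := by
  apply le_antisymm
  · refine (h.add x y).trans ?_
    rw [max_eq_left hxy.le]
  · have h1 : D ((x + y) + -y) ≤ max (D (x + y)) (D (-y)) := h.add _ _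
    rw [add_neg_cancel_right, h.neg] at h1
    rcases le_max_iff.1 h1 with h2 | h2
    · exact h2
    · exact absurd hxy (not_lt.2 h2)

theorem sub_le (h : IsDegree R D) {x y : R} (hx : D x ≤ 0) (hy : D y ≤ 0) : D (x - y) ≤ 0 := by
  rw [sub_eq_add_neg]
  refine (h.add _ _).trans (max_le hx ?_)
  rw [h.neg]
  exact hy

theorem of_mul_one (h : IsDegree R D) {x y : R} (hxy : x * y = 1) : D x = 0 ∧ D y = 0 := by
  have hx : x ≠ 0 := by
    rintro rfl
    rw [zero_mul] at hxy
    exact zero_ne_one hxy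
  have hy : y ≠ 0 := by
    rintro rfl
    rw [mul_zero] at hxy
    exact zero_ne_one hxy
  have h1 : D x + D y = 0 := by
    rw [← h.mul, hxy, h.one]
  refine ⟨h.const (wb_le_of_add h1.le (h.ne hy)) hx, ?_⟩
  rw [add_comm] at h1
  exact h.const (wb_le_of_add h1.le (h.ne hx)) hy

omit [Nontrivial R] in
theorem eq_zero (h : IsDegree R D) {x : R} (hx : D x ≤ 0) {S : Type} [Ring S] [Nontrivial S]
    (ψ : R →+* S) (hψ : ψ x = 0) : x = 0 := by
  by_contra h0
  have := (h.unit x (h.const hx h0)).map ψ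
  rw [hψ] at this
  exact not_isUnit_zero this

end IsDegree

section

variable {R : Type} [Ring R]

theorem mul_val (x z : (Matrix (Fin 2) (Fin 2) R)ˣ) (i j : Fin 2) :
    (x * z).val i j = x.val i 0 * z.val 0 j + x.val i 1 * z.val 1 j := by
  rw [Units.val_mul, Matrix.mul_apply, Fin.sum_univ_two]

theorem inv_mul_val (x : (Matrix (Fin 2) (Fin 2) R)ˣ) (i j : Fin 2) :
    (x⁻¹).val i 0 * x.val 0 j + (x⁻¹).val i 1 * x.val 1 j = if i = j then 1 else 0 := by
  rw [← mul_val, inv_mul_cancel]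
  exact Matrix.one_apply

theorem mul_inv_val (x : (Matrix (Fin 2) (Fin 2) R)ˣ) (i j : Fin 2) :
    x.val i 0 * (x⁻¹).val 0 j + x.val i 1 * (x⁻¹).val 1 j = if i = j then 1 else 0 := by
  rw [← mul_val, mul_inv_cancel]
  exact Matrix.one_apply

variable [Nontrivial R] {D : R → WithBot ℕ} (hD : IsDegree R D)

/-- matrices of degree `0` -/
def AA : Subgroup (Matrix (Fin 2) (Fin 2) R)ˣ where
  carrier := {u | (∀ i j, D (u.val i j) ≤ 0) ∧ ∀ i j, D ((u⁻¹).val i j) ≤ 0}
  one_mem' := by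
    have : ∀ i j, D ((1 : (Matrix (Fin 2) (Fin 2) R)ˣ).val i j) ≤ 0 := by
      intro i j
      have e : (1 : (Matrix (Fin 2) (Fin 2) R)ˣ).val i j = if i = j then 1 else 0 :=
        Matrix.one_apply
      rw [e]
      split_ifs
      · rw [hD.one]
      · rw [(hD.bot 0).2 rfl]
        exact bot_le
    exact ⟨this, by rw [inv_one]; exact this⟩
  mul_mem' := by
    have key : ∀ u v : (Matrix (Fin 2) (Fin 2) R)ˣ, (∀ i j, D (u.val i j) ≤ 0) →
        (∀ i j, D (v.val i j) ≤ 0) → ∀ i j, D ((u * v).val i j) ≤ 0 := by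
      intro u v hu hv i j
      rw [mul_val]
      refine (hD.add _ _).trans (max_le ?_ ?_)
      · exact (hD.le_mul (hu _ _) _).trans (hv _ _)
      · exact (hD.le_mul (hu _ _) _).trans (hv _ _)
    intro u v hu hv
    refine ⟨key u v hu.1 hv.1, ?_⟩
    rw [mul_inv_rev]
    exact key _ _ hv.2 hu.2
  inv_mem' := by
    intro u hu
    refine ⟨hu.2, ?_⟩
    rw [inv_inv]
    exact hu.1

/-- upper triangular matrices with diagonal of degree `0` -/
def BB : Subgroup (Matrix (Fin 2) (Fin 2) R)ˣ where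
  carrier := {u | u.val 1 0 = 0 ∧ D (u.val 0 0) ≤ 0 ∧ D (u.val 1 1) ≤ 0}
  one_mem' := by
    refine ⟨rfl, ?_, ?_⟩
    · have : (1 : (Matrix (Fin 2) (Fin 2) R)ˣ).val 0 0 = 1 := rfl
      rw [this, hD.one]
    · have : (1 : (Matrix (Fin 2) (Fin 2) R)ˣ).val 1 1 = 1 := rfl
      rw [this, hD.one]
  mul_mem' := by
    rintro u v ⟨hu, hu0, hu1⟩ ⟨hv, hv0, hv1⟩
    refine ⟨?_, ?_, ?_⟩
    · rw [mul_val, hu, hv, zero_mul, mul_zero, add_zero]
    · rw [mul_val, hv, mul_zero, add_zero]
      exact (hD.le_mul hu0 _).trans hv0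
    · rw [mul_val, hu, zero_mul, zero_add]
      exact (hD.le_mul hu1 _).trans hv1
  inv_mem' := by
    rintro u ⟨hu, hu0, hu1⟩
    have h00 := inv_mul_val u 0 0
    rw [hu, mul_zero, add_zero, if_pos rfl] at h00
    have h10 := inv_mul_val u 1 0
    rw [hu, mul_zero, add_zero, if_neg (by decide)] at h10
    have hU : IsUnit (u.val 0 0) := by
      refine hD.unit _ (hD.of_mul_one h00).2
    have h10' : (u⁻¹).val 1 0 = 0 := hU.mul_left_eq_zero.1 h10
    have h11 := inv_mul_val u 1 1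
    rw [h10', zero_mul, zero_add, if_pos rfl] at h11
    exact ⟨h10', (hD.of_mul_one h00).1.le, (hD.of_mul_one h11).1.le⟩

/-- the two subgroups -/
def XX : Bool → Subgroup (Matrix (Fin 2) (Fin 2) R)ˣ
  | true => AA hD
  | false => BB hD

theorem au_not {u : (Matrix (Fin 2) (Fin 2) R)ˣ} (hu : u ∈ AA hD) (h : u ∉ BB hD) :
    D (u.val 1 0) = 0 := by
  refine hD.const (hu.1 _ _) ?_
  intro h0
  exact h ⟨h0, hu.1 _ _, hu.1 _ _⟩

theorem bu_diag {u : (Matrix (Fin 2) (Fin 2) R)ˣ} (hu : u ∈ BB hD) :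
    D (u.val 0 0) = 0 ∧ D (u.val 1 1) = 0 := by
  have h00 := inv_mul_val u 0 0
  rw [hu.1, mul_zero, add_zero, if_pos rfl] at h00
  have h11 := inv_mul_val u 1 1
  rw [((BB hD).inv_mem hu).1, zero_mul, zero_add, if_pos rfl] at h11
  exact ⟨(hD.of_mul_one h00).2, (hD.of_mul_one h11).2⟩

theorem bu_not {u : (Matrix (Fin 2) (Fin 2) R)ˣ} (hu : u ∈ BB hD) (h : u ∉ AA hD) :
    0 < D (u.val 0 1) := by
  rw [← not_le]
  intro h0
  apply h
  have hz : D (0 : R) ≤ 0 := by
    rw [(hD.bot 0).2 rfl]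
    exact bot_le
  have hi := (BB hD).inv_mem hu
  constructor
  · intro i j
    fin_cases i <;> fin_cases j
    · exact hu.2.1
    · exact h0
    · show D (u.val 1 0) ≤ 0
      rw [hu.1]
      exact hz
    · exact hu.2.2
  · intro i j
    fin_cases i <;> fin_cases j
    · exact hi.2.1
    · have h01 := inv_mul_val u 0 1
      rw [if_neg (by decide), add_eq_zero_iff_neg_eq] at h01
      have h3 : D ((u⁻¹).val 0 1) + D (u.val 1 1) ≤ 0 := by
        rw [← hD.mul, ← h01, hD.neg]
        exact (hD.le_mul hi.2.1 _).trans h0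
      exact wb_le_of_add h3 (by rw [(bu_diag hD hu).2]; exact WithBot.zero_ne_bot)
    · show D ((u⁻¹).val 1 0) ≤ 0
      rw [hi.1]
      exact hz
    · exact hi.2.2

theorem ping {i : Bool} {x : (Matrix (Fin 2) (Fin 2) R)ˣ}
    (h : RX (XX hD) i x) :
    (i = true → ∃ j, D (x.val 0 j) ≤ D (x.val 1 j) ∧ x.val 1 j ≠ 0) ∧
    (i = false → ∃ j, D (x.val 1 j) < D (x.val 0 j) ∧ 0 < D (x.val 0 j)) := by
  induction h with
  | base i a ha ha' =>
    cases i with
    | true =>
      refine ⟨fun _ => ?_, fun h => absurd h (by simp)⟩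
      have h0 := au_not hD ha ha'
      refine ⟨0, ?_, ?_⟩
      · rw [h0]
        exact ha.1 _ _
      · intro h1
        rw [h1, (hD.bot 0).2 rfl] at h0
        exact WithBot.bot_ne_zero h0
    | false =>
      refine ⟨fun h => absurd h (by simp), fun _ => ?_⟩
      have h0 := bu_not hD ha ha'
      refine ⟨1, ?_, ?_⟩
      · exact lt_of_le_of_lt ha.2.2 h0
      · exact h0
  | step i a z ha ha' hz ih =>
    cases i with
    | true =>
      refine ⟨fun _ => ?_, fun h => absurd h (by simp)⟩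
      have h0 := au_not hD ha ha'
      obtain ⟨j, h1, h2⟩ := ih.2 rfl
      have e : D ((a * z).val 1 j) = D (z.val 0 j) := by
        rw [mul_val, hD.add_eq, hD.eq_mul h0]
        rw [hD.eq_mul h0]
        exact (hD.le_mul (ha.1 _ _) _).trans_lt h1
      refine ⟨j, ?_, ?_⟩
      · rw [e, mul_val]
        refine (hD.add _ _).trans (max_le (hD.le_mul (ha.1 _ _) _) ?_)
        exact (hD.le_mul (ha.1 _ _) _).trans h1.le
      · intro h3
        rw [h3, (hD.bot 0).2 rfl] at e
        rw [← e] at h2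
        exact absurd h2 (by simp)
    | false =>
      refine ⟨fun h => absurd h (by simp), fun _ => ?_⟩
      have h0 := bu_not hD ha ha'
      obtain ⟨j, h1, h2⟩ := ih.1 rfl
      have h3 : D (z.val 1 j) < D (a.val 0 1) + D (z.val 1 j) := wb_lt_add h0 (hD.ne h2)
      have e : D ((a * z).val 0 j) = D (a.val 0 1) + D (z.val 1 j) := by
        rw [mul_val, add_comm, hD.add_eq, hD.mul]
        rw [hD.mul (a.val 0 1)]
        exact ((hD.le_mul ha.2.1 _).trans h1).trans_lt h3
      have e' : D ((a * z).val 1 j) = D (z.val 1 j) := by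
        rw [mul_val, ha.1, zero_mul, zero_add, hD.eq_mul (bu_diag hD ha).2]
      refine ⟨j, ?_, ?_⟩
      · rw [e, e']
        exact h3
      · rw [e]
        exact lt_of_le_of_lt (wb_nonneg (hD.ne h2)) h3

theorem RX_ne (i : Bool) (x : (Matrix (Fin 2) (Fin 2) R)ˣ)
    (h : RX (XX hD) i x) : x ≠ 1 := by
  have key : ∀ y : (Matrix (Fin 2) (Fin 2) R)ˣ, RX (XX hD) false y → y ∉ XX hD true := by
    intro y hy hyA
    obtain ⟨j, _, h2⟩ := (ping hD hy).2 rfl
    exact absurd h2 (not_lt.2 (hyA.1 _ _))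
  cases i with
  | false =>
    rintro rfl
    exact key 1 h (one_mem _)
  | true =>
    cases h with
    | base _ _ ha ha' =>
      rintro rfl
      exact ha' (one_mem _)
    | step _ a z ha ha' hz =>
      intro h1
      apply key z hz
      rw [eq_inv_of_mul_eq_one_right h1]
      exact inv_mem ha

omit [Nontrivial R] in
theorem w_inv : (!![0, 1; 1, 0] : Matrix (Fin 2) (Fin 2) R) * !![0, 1; 1, 0] = 1 := by
  simp [Matrix.one_fin_two]

theorem GE2_le : GE2 R ≤ XX hD true ⊔ XX hD false := by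
  unfold GE2
  rw [Subgroup.closure_le]
  have hz : D (0 : R) ≤ 0 := by
    rw [(hD.bot 0).2 rfl]
    exact bot_le
  have hb : ∀ u : (Matrix (Fin 2) (Fin 2) R)ˣ, u ∈ BB hD → u ∈ XX hD true ⊔ XX hD false :=
    fun u hu => (le_sup_right : XX hD false ≤ _) hu
  rintro u (⟨r, hr⟩ | ⟨r, hr⟩ | ⟨a, d, hr⟩)
  · refine hb _ ⟨?_, ?_, ?_⟩
    · rw [hr]; rfl
    · rw [hr]; exact hD.one.le
    · rw [hr]; exact hD.one.le
  · let w : (Matrix (Fin 2) (Fin 2) R)ˣ := ⟨!![0, 1; 1, 0], !![0, 1; 1, 0], w_inv, w_inv⟩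
    have hw : w ∈ XX hD true ⊔ XX hD false := by
      refine (le_sup_left : XX hD true ≤ _) ?_
      have : ∀ i j, D (w.val i j) ≤ 0 := by
        intro i j
        fin_cases i <;> fin_cases j
        · exact hz
        · exact hD.one.le
        · exact hD.one.le
        · exact hz
      exact ⟨this, this⟩
    have h1 : w * u * w ∈ XX hD true ⊔ XX hD false := by
      have hwv : w.val = !![0, 1; 1, 0] := rfl
      have e : (w * u * w).val = !![1, r; 0, 1] := by
        rw [Units.val_mul, Units.val_mul, hr, hwv]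
        simp
      refine hb _ ⟨?_, ?_, ?_⟩
      · rw [e]; rfl
      · rw [e]; exact hD.one.le
      · rw [e]; exact hD.one.le
    have h2 : u = w⁻¹ * (w * u * w) * w⁻¹ := by group
    rw [h2]
    exact mul_mem (mul_mem (inv_mem hw) h1) (inv_mem hw)
  · have h00 := mul_inv_val u 0 0
    rw [hr, if_pos rfl] at h00
    have h00' : a * (u⁻¹).val 0 0 = 1 := by simpa using h00
    have h11 := mul_inv_val u 1 1
    rw [hr, if_pos rfl] at h11
    have h11' : d * (u⁻¹).val 1 1 = 1 := by simpa using h11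
    refine hb _ ⟨?_, ?_, ?_⟩
    · rw [hr]; rfl
    · rw [hr]; exact (hD.of_mul_one h00').1.le
    · rw [hr]; exact (hD.of_mul_one h11').1.le

end

/-- **The theorem**, provided that the triangular matrices are in the class. -/
theorem ge2_of {C : ∀ (G : Type) [Group G], Prop} (hC : ClosedE C) {R S : Type}
    [Ring R] [Nontrivial R] [Ring S] [Nontrivial S]
    {D : R → WithBot ℕ} (hD : IsDegree R D) (ψ : R →+* S)
    (hS : C (Matrix (Fin 2) (Fin 2) S)ˣ) (hB : C (AA hD) → C (BB hD)) : C (GE2 R) := by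
  let Ψ : (Matrix (Fin 2) (Fin 2) R)ˣ →* (Matrix (Fin 2) (Fin 2) S)ˣ :=
    Units.map ψ.mapMatrix.toMonoidHom
  have hΨv : ∀ u i j, (Ψ u).val i j = ψ (u.val i j) := fun u i j => rfl
  have hΨ : ∀ u ∈ AA hD, Ψ u = 1 → u = 1 := by
    intro u hu h
    apply Units.ext
    ext i j
    have h1 : D (u.val i j - (1 : (Matrix (Fin 2) (Fin 2) R)ˣ).val i j) ≤ 0 :=
      hD.sub_le (hu.1 _ _) ((AA hD).one_mem.1 _ _)
    have h2 : ψ (u.val i j - (1 : (Matrix (Fin 2) (Fin 2) R)ˣ).val i j) = 0 := by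
      rw [map_sub, ← hΨv, ← hΨv, h, map_one, sub_self]
    exact sub_eq_zero.1 (hD.eq_zero h1 ψ h2)
  have hA : C (AA hD) := by
    refine hC.base.of_injective _ _ (Ψ.comp (AA hD).subtype) ?_ hS
    rw [injective_iff_map_eq_one]
    intro u hu
    exact Subtype.ext (hΨ u u.2 hu)
  have hB' := hB hA
  let T : Subgroup (Matrix (Fin 2) (Fin 2) R)ˣ := XX hD true ⊔ XX hD false
  have hT : ∀ i, XX hD i ≤ T := by
    intro i
    cases i with
    | true => exact le_sup_left
    | false => exact le_sup_right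
  let X : Bool → Subgroup T := fun i => (XX hD i).subgroupOf T
  have hX : ∀ i, C (X i) := by
    intro i
    refine hC.base.of_injective _ _ (Subgroup.subgroupOfEquivOfLe (hT i)).toMonoidHom
      (Subgroup.subgroupOfEquivOfLe (hT i)).injective ?_
    cases i with
    | true => exact hA
    | false => exact hB'
  have hRX : ∀ i z, RX X i z → RX (XX hD) i (z : (Matrix (Fin 2) (Fin 2) R)ˣ) := by
    intro i z hz
    induction hz with
    | base i a ha ha' => exact RX.base i (a : (Matrix (Fin 2) (Fin 2) R)ˣ) ha ha'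
    | step i a z ha ha' _ ih =>
      exact RX.step i (a : (Matrix (Fin 2) (Fin 2) R)ˣ) (z : (Matrix (Fin 2) (Fin 2) R)ˣ) ha ha' ih
  have hne : ∀ i z, RX X i z → z ≠ 1 := by
    intro i z hz h1
    exact RX_ne hD i z (hRX i z hz) (by rw [h1]; rfl)
  have hgen : X true ⊔ X false = ⊤ := by
    show (XX hD true).subgroupOf T ⊔ (XX hD false).subgroupOf T = ⊤
    rw [← Subgroup.subgroupOf_sup (hT true) (hT false)]
    exact Subgroup.subgroupOf_self T
  have hamg := amg X hne hgen
  have hTC : C T := by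
    refine Pool.Agent.R665.FJ.am hC (X true) (X false) (X true ⊓ X false) (hX true) (hX false)
      hS hamg (Ψ.comp T.subtype) ?_
    rintro ⟨x, hxT⟩ ⟨hx, _⟩ hx1
    exact Subtype.ext (hΨ x hx hx1)
  exact hC.base.of_injective _ _ (Subgroup.inclusion (GE2_le hD))
    (Subgroup.inclusion_injective _) hTC

end Pool.Agent.R632.GE
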