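import Mathlib
import Pool.Agent.R632.GE.Gen
import Pool.Agent.Y529.FJ.Ext

/-!
The triangular matrices.
-/

set_option autoImplicit false

namespace Pool.Agent.R632.GE

open Pool.Agent.Y110.FJ

variable {R : Type} [Ring R] [Nontrivial R] {D : R → WithBot ℕ} (hD : IsDegree R D)

section solvable

/-- the diagonal part -/
def dg : BB hD →* (Matrix (Fin 2) (Fin 2) R)ˣ :=
  MonoidHom.toHomUnits
    { toFun := fun u => !![u.1.val 0 0, 0; 0, u.1.val 1 1]
      map_one' := by
        ext i j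
        fin_cases i <;> fin_cases j <;> simp
      map_mul' := by
        intro u v
        have h0 : (u * v).1.val 0 0 = u.1.val 0 0 * v.1.val 0 0 := by
          rw [Subgroup.coe_mul, mul_val, v.2.1, mul_zero, add_zero]
        have h1 : (u * v).1.val 1 1 = u.1.val 1 1 * v.1.val 1 1 := by
          rw [Subgroup.coe_mul, mul_val, u.2.1, zero_mul, zero_add]
        rw [h0, h1, Matrix.mul_fin_two]
        simp }

theorem dg_val (u : BB hD) : (dg hD u).val = !![u.1.val 0 0, 0; 0, u.1.val 1 1] := rfl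

theorem dg_le (u : BB hD) (i j : Fin 2) : D ((dg hD u).val i j) ≤ 0 := by
  have hz : D (0 : R) ≤ 0 := by
    rw [(hD.bot 0).2 rfl]
    exact bot_le
  rw [dg_val]
  fin_cases i <;> fin_cases j
  · exact u.2.2.1
  · exact hz
  · exact hz
  · exact u.2.2.2

theorem dg_mem (u : BB hD) : dg hD u ∈ AA hD := by
  refine ⟨dg_le hD u, ?_⟩
  rw [← map_inv]
  exact dg_le hD u⁻¹

/-- the diagonal part -/
def dgA : BB hD →* AA hD := (dg hD).codRestrict (AA hD) (dg_mem hD)

theorem dgA_ker (u : BB hD) (h : dgA hD u = 1) : u.1.val 0 0 = 1 ∧ u.1.val 1 1 = 1 := by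
  have h1 : dg hD u = 1 := congrArg Subtype.val h
  have h2 : (!![u.1.val 0 0, 0; 0, u.1.val 1 1] : Matrix (Fin 2) (Fin 2) R) = 1 := by
    rw [← dg_val, h1]
    rfl
  exact ⟨congrFun (congrFun h2 0) 0, congrFun (congrFun h2 1) 1⟩

theorem dgA_comm (u v : (dgA hD).ker) : u * v = v * u := by
  obtain ⟨hu0, hu1⟩ := dgA_ker hD u.1 u.2
  obtain ⟨hv0, hv1⟩ := dgA_ker hD v.1 v.2
  have hu := u.1.2.1
  have hv := v.1.2.1
  apply Subtype.ext
  apply Subtype.ext
  apply Units.ext
  show (u.1.1 * v.1.1).val = (v.1.1 * u.1.1).val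
  ext i j
  rw [mul_val, mul_val]
  fin_cases i <;> fin_cases j
  · show u.1.1.val 0 0 * v.1.1.val 0 0 + u.1.1.val 0 1 * v.1.1.val 1 0 =
      v.1.1.val 0 0 * u.1.1.val 0 0 + v.1.1.val 0 1 * u.1.1.val 1 0
    rw [hu0, hv0, hu, hv]
    simp
  · show u.1.1.val 0 0 * v.1.1.val 0 1 + u.1.1.val 0 1 * v.1.1.val 1 1 =
      v.1.1.val 0 0 * u.1.1.val 0 1 + v.1.1.val 0 1 * u.1.1.val 1 1
    rw [hu0, hv0, hu1, hv1, one_mul, mul_one, one_mul, mul_one]
    exact add_comm _ _
  · show u.1.1.val 1 0 * v.1.1.val 0 0 + u.1.1.val 1 1 * v.1.1.val 1 0 =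
      v.1.1.val 1 0 * u.1.1.val 0 0 + v.1.1.val 1 1 * u.1.1.val 1 0
    rw [hu, hv]
    simp
  · show u.1.1.val 1 0 * v.1.1.val 0 1 + u.1.1.val 1 1 * v.1.1.val 1 1 =
      v.1.1.val 1 0 * u.1.1.val 0 1 + v.1.1.val 1 1 * u.1.1.val 1 1
    rw [hu, hv, hu1, hv1]
    simp

theorem B_solvable {C : ∀ (G : Type) [Group G], Prop} (hC : ClosedE C)
    (hs : ∀ (G : Type) [Group G], Group.IsSolvable G → C G) (hA : C (AA hD)) : C (BB hD) := by
  have hN : Group.IsSolvable (dgA hD).ker := Group.isSolvable_of_comm (dgA_comm hD)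
  refine Pool.Agent.Y529.FJ.t_ext C hC (BB hD) (dgA hD).ker (hs _ hN) ?_ ?_
  · exact hC.base.of_injective _ _ (QuotientGroup.kerLift (dgA hD))
      (QuotientGroup.kerLift_injective _) hA
  · intro g _
    apply hs
    let H : Subgroup (BB hD) := (dgA hD).ker ⊔ Subgroup.zpowers g
    have hH : H ≤ (Subgroup.zpowers (dgA hD g)).comap (dgA hD) := by
      refine sup_le ?_ ?_
      · intro x hx
        rw [Subgroup.mem_comap, (dgA hD).mem_ker.1 hx]
        exact one_mem _
      · rw [Subgroup.zpowers_le]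
        exact Subgroup.mem_zpowers _
    let q : H →* Subgroup.zpowers (dgA hD g) :=
      ((dgA hD).comp H.subtype).codRestrict _ (fun x => hH x.2)
    have : Group.IsSolvable (Subgroup.zpowers (dgA hD g)) := by
      refine Group.isSolvable_of_comm ?_
      rintro ⟨_, m, rfl⟩ ⟨_, n, rfl⟩
      exact Subtype.ext (zpow_mul_comm _ m n)
    refine Group.isSolvable_of_ker_le_range
      (Subgroup.inclusion (le_sup_left : (dgA hD).ker ≤ H)) q ?_
    intro x hx
    have h1 : dgA hD x = 1 := congrArg Subtype.val (q.mem_ker.1 hx)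
    exact ⟨⟨x, h1⟩, rfl⟩

end solvable

section central

theorem B_algebra {C : ∀ (G : Type) [Group G], Prop} (hC : ClosedE C) {k : Type} [Field k]
    [Algebra k R] (hk : ∀ x, D x ≤ 0 ↔ x ∈ Set.range (algebraMap k R)) (hA : C (AA hD)) :
    C (BB hD) := by
  have hinj : Function.Injective (algebraMap k R) := (algebraMap k R).injective
  let f : (Matrix (Fin 2) (Fin 2) k)ˣ →* (Matrix (Fin 2) (Fin 2) R)ˣ :=
    Units.map (algebraMap k R).mapMatrix.toMonoidHom
  have hf : ∀ u, f u ∈ AA hD := by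
    have h1 : ∀ u i j, D ((f u).val i j) ≤ 0 := fun u i j => (hk _).2 ⟨u.val i j, rfl⟩
    intro u
    refine ⟨h1 u, ?_⟩
    rw [← map_inv]
    exact h1 u⁻¹
  have hk2 : C (Matrix (Fin 2) (Fin 2) k)ˣ := by
    refine hC.base.of_injective _ _ (f.codRestrict (AA hD) hf) ?_ hA
    intro u v huv
    have h1 : f u = f v := congrArg Subtype.val huv
    apply Units.ext
    ext i j
    apply hinj
    show (f u).val i j = (f v).val i j
    rw [h1]
  have hB : C (Bor k R) := C_bor hC.base (C_bor_k hC.base hk2)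
  have hle : BB hD ≤ (bu (k := k) (R := R)).range := by
    intro u hu
    obtain ⟨a, ha⟩ := (hk _).1 hu.2.1
    obtain ⟨d, hd⟩ := (hk _).1 hu.2.2
    have ha0 : a ≠ 0 := by
      rintro rfl
      rw [map_zero] at ha
      have := (bu_diag hD hu).1
      rw [← ha, (hD.bot 0).2 rfl] at this
      exact WithBot.bot_ne_zero this
    have hd0 : d ≠ 0 := by
      rintro rfl
      rw [map_zero] at hd
      have := (bu_diag hD hu).2
      rw [← hd, (hD.bot 0).2 rfl] at this
      exact WithBot.bot_ne_zero this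
    refine ⟨⟨Units.mk0 a ha0, Units.mk0 d hd0, u.val 0 1⟩, ?_⟩
    apply Units.ext
    ext i j
    rw [bu_val]
    fin_cases i <;> fin_cases j
    · exact ha
    · rfl
    · exact hu.1.symm
    · exact hd
  have hr : C (bu (k := k) (R := R)).range := by
    refine hC.base.of_injective _ _
      (MonoidHom.ofInjective (bu_injective (k := k) (R := R))).symm.toMonoidHom ?_ hB
    exact (MonoidHom.ofInjective (bu_injective (k := k) (R := R))).symm.injective
  exact hC.base.of_injective _ _ (Subgroup.inclusion hle) (Subgroup.inclusion_injective _) hr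

/-- the ring of constants -/
def KK : Subring R where
  carrier := {x | D x ≤ 0}
  one_mem' := hD.one.le
  zero_mem' := by
    show D (0 : R) ≤ 0
    rw [(hD.bot 0).2 rfl]
    exact bot_le
  mul_mem' := fun {a b} ha hb => (hD.le_mul ha b).trans hb
  add_mem' := fun {a b} ha hb => (hD.add a b).trans (max_le ha hb)
  neg_mem' := fun {a} ha => by
    show D (-a) ≤ 0
    rw [hD.neg]
    exact ha

theorem B_central {C : ∀ (G : Type) [Group G], Prop} (hC : ClosedE C)
    (hc : ∀ x y : R, D x ≤ 0 → x * y = y * x) (hA : C (AA hD)) : C (BB hD) := by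
  have hF : IsField (KK hD) := by
    refine ⟨⟨0, 1, zero_ne_one⟩, ?_, ?_⟩
    · intro x y
      exact Subtype.ext (hc x y x.2)
    · intro x hx
      have hx0 : (x : R) ≠ 0 := fun h => hx (Subtype.ext h)
      obtain ⟨y, hy⟩ := (hD.unit x (hD.const x.2 hx0)).exists_right_inv
      exact ⟨⟨y, (hD.of_mul_one hy).2.le⟩, Subtype.ext hy⟩
  let _ : Field (KK hD) := hF.toField
  let _ : Algebra (KK hD) R := RingHom.toAlgebra' (KK hD).subtype (fun c x => hc c x c.2)
  refine B_algebra hD hC (k := KK hD) ?_ hA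
  intro x
  constructor
  · intro hx
    exact ⟨⟨x, hx⟩, rfl⟩
  · rintro ⟨y, rfl⟩
    exact y.2

end central

/-- **The theorem.** -/
theorem ge2 {C : ∀ (G : Type) [Group G], Prop} (hC : ClosedE C) {R S : Type}
    [Ring R] [Nontrivial R] [Ring S] [Nontrivial S]
    {D : R → WithBot ℕ} (hD : IsDegree R D) (ψ : R →+* S)
    (hS : C (Matrix (Fin 2) (Fin 2) S)ˣ)
    (h : (∀ (G : Type) [Group G], Group.IsSolvable G → C G) ∨ ∀ x y : R, D x ≤ 0 → x * y = y * x) :
    C (GE2 R) := by
  refine ge2_of hC hD ψ hS ?_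
  intro hA
  rcases h with h | h
  · exact B_solvable hD hC h hA
  · exact B_central hD hC h hA

end Pool.Agent.R632.GE
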